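import Mathlib

namespace Pool.Agent.H.MP_9b9b31_co

open Finset SimpleGraph Module Matrix

variable {W : Type} [Fintype W] [DecidableEq W]

/-- 1-skeleton of a family of triangles -/
def skel (T : Finset (Finset W)) : SimpleGraph W :=
  SimpleGraph.fromRel fun u v => ∃ t ∈ T, u ∈ t ∧ v ∈ t

/-- `a` and `b` are triangles of `T` with a common edge -/
def Near (T : Finset (Finset W)) (a b : Finset W) : Prop :=
  a ∈ T ∧ b ∈ T ∧ ∃ u v, u ≠ v ∧ u ∈ a ∧ v ∈ a ∧ u ∈ b ∧ v ∈ b

/-- `T` triangulates a connected closed surface of Euler genus `g` with vertex set `W` -/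
def Surf (T : Finset (Finset W)) (g : ℕ) : Prop :=
  T.Nonempty ∧ (∀ t ∈ T, #t = 3) ∧ (∀ v, ∃ t ∈ T, v ∈ t) ∧
  (∀ u v, (skel T).Adj u v → #{t ∈ T | u ∈ t ∧ v ∈ t} = 2) ∧
  (∀ v, ∀ a ∈ T, ∀ b ∈ T, v ∈ a → v ∈ b →
    Relation.ReflTransGen (fun x y => Near T x y ∧ v ∈ x ∧ v ∈ y) a b) ∧
  (∀ a ∈ T, ∀ b ∈ T, Relation.ReflTransGen (Near T) a b) ∧
  Fintype.card W + #T + g = (skel T).edgeSet.ncard + 2

lemma few {G K : SimpleGraph W} {l : ℕ} (hG : (l : ℕ∞) ≤ G.egirth) (h : K ≤ G)
    (s : Finset (Sym2 W)) (hs : K.edgeSet ⊆ s) (hl : #s < l) : K.IsAcyclic := fun v c hc => by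
  have h1 := hG.trans ((egirth_anti h).trans (egirth_le_length hc))
  have h2 : #c.edges.toFinset ≤ #s :=
    card_le_card fun e he => hs (c.edges_subset_edgeSet (List.mem_toFinset.1 he))
  rw [List.toFinset_card_of_nodup hc.edges_nodup, Walk.length_edges] at h2
  have := Nat.cast_le.1 h1
  omega

lemma le1 {ι : Type} [Fintype ι] (S : Submodule (ZMod 2) (ι → ZMod 2))
    (h : ∀ s ∈ S, ∀ a b, s a = s b) : finrank (ZMod 2) S ≤ 1 := by
  refine (Submodule.finrank_mono (t := Submodule.span _ {1}) fun s hs => ?_).trans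
    ((finrank_span_le_card _).trans (by simp))
  rcases isEmpty_or_nonempty ι with _ | ⟨⟨a⟩⟩
  · rw [Subsingleton.elim s 0]; exact zero_mem _
  exact Submodule.mem_span_singleton.2 ⟨s a, funext fun b => by simp [h s hs a b]⟩

lemma sum2 (φ : W → ZMod 2) {a b : W} (h : a ≠ b) :
    ∑ v, φ v * (if v ∈ s(a, b) then 1 else 0) = φ a + φ b := by
  rw [← sum_pair h, ← sum_subset (subset_univ {a, b}) (by simp +contextual)]
  exact sum_congr rfl (by simp +contextual)

theorem euler {T : Finset (Finset W)} {g l : ℕ} (hT : Surf T g) {H : SimpleGraph W}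
    [DecidableRel H.Adj] (hH : H ≤ skel T) (hl : (l : ℕ∞) ≤ H.egirth) (U : Finset W)
    (hU : ∀ u v, H.Adj u v → u ∈ U) :
    l * #H.edgeFinset ≤ l * (#U + g) + 2 * #H.edgeFinset := by
  classical
  obtain ⟨⟨t0, ht0⟩, h3, hc, h2, -, hcon, heu⟩ := hT
  let E := (skel T).edgeSet
  let M1 : Matrix W E (ZMod 2) := fun v e => if v ∈ e.1 then 1 else 0
  let M2 : Matrix E T (ZMod 2) := fun e t => if ∀ v ∈ e.1, v ∈ t.1 then 1 else 0
  have adj : ∀ {t u v}, t ∈ T → u ≠ v → u ∈ t → v ∈ t → (skel T).Adj u v :=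
    fun ht h hu hv => ⟨h, Or.inl ⟨_, ht, hu, hv⟩⟩
  have m12 : M1 * M2 = 0 := by
    ext v t
    simp only [Matrix.mul_apply, M1, M2, ite_zero_mul_ite_zero, mul_one, sum_boole,
      Matrix.zero_apply]
    by_cases hv : v ∈ t.1
    · have : #{e : E | v ∈ e.1 ∧ ∀ w ∈ e.1, w ∈ t.1} = #(t.1.erase v) := by
        symm
        refine card_bij (fun w hw => ⟨s(v, w), adj t.2 (ne_of_mem_erase hw).symm hv
          (mem_of_mem_erase hw)⟩) (fun w hw => by simpa [hv] using mem_of_mem_erase hw)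
          (fun a _ b _ h => by simpa using Sym2.congr_right.1 (congrArg Subtype.val h)) ?_
        rintro ⟨e, he⟩ h
        obtain ⟨h1, h2⟩ := (mem_filter.1 h).2
        obtain ⟨w, rfl⟩ := Sym2.mem_iff_exists.1 h1
        exact ⟨w, mem_erase.2 ⟨(skel T).ne_of_adj he |>.symm, h2 w (by simp)⟩, rfl⟩
      rw [this, card_erase_of_mem hv, h3 _ t.2]; rfl
    · rw [filter_eq_empty_iff.2 fun e _ h => hv (h.2 v h.1)]; rfl
  have two : ∀ e : E, #{t : T | ∀ v ∈ e.1, v ∈ t.1} = 2 := by
    rintro ⟨e, he⟩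
    induction e using Sym2.ind with | _ u v => ?_
    rw [← h2 u v he]
    exact card_bij (fun t _ => t.1) (fun t h => by simpa using h) (fun _ _ _ _ => Subtype.ext)
      fun t h => ⟨⟨t, (mem_filter.1 h).1⟩, by simpa using (mem_filter.1 h).2, rfl⟩
  have pair : ∀ (e : E) (a b : T), (∀ v ∈ e.1, v ∈ a.1) → (∀ v ∈ e.1, v ∈ b.1) → a ≠ b →
      ∀ s, (M2 *ᵥ s) e = s a + s b := fun e a b ha hb hab s => by
    have : ({t : T | ∀ v ∈ e.1, v ∈ t.1} : Finset T) = {a, b} := (eq_of_subset_of_card_le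
      (by simp [insert_subset_iff]; exact ⟨ha, hb⟩) (by rw [two, card_pair hab])).symm
    rw [← sum_pair hab, ← this, sum_filter]
    exact sum_congr rfl fun t _ => by simp only [M2]; split_ifs <;> simp
  have z2 : ∀ x y : ZMod 2, x + y = 0 → x = y := by decide
  have k2 := le1 (LinearMap.ker M2.mulVecLin) fun s hs a b => by
    have : ∀ x y, Relation.ReflTransGen (Near T) x y → ∀ hx hy, s ⟨x, hx⟩ = s ⟨y, hy⟩ := by
      intro x y h hx
      induction h with
      | refl => exact fun _ => rfl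
      | @tail c d _ h ih =>
        intro hy
        obtain ⟨h1, -, u, v, huv, a1, a2, a3, a4⟩ := h
        rw [ih h1]
        by_cases e : c = d
        · subst e; rfl
        exact z2 _ _ ((pair ⟨s(u, v), adj h1 huv a1 a2⟩ ⟨c, h1⟩ ⟨d, hy⟩ (by simp [*]) (by simp [*])
          (by simpa using e) s).symm.trans (congrFun hs _))
    exact this _ _ (hcon _ a.2 _ b.2) _ _
  have k1 := le1 (LinearMap.ker M1ᵀ.mulVecLin) fun s hs a b => by
    have e1 : ∀ t ∈ T, ∀ u ∈ t, ∀ v ∈ t, s u = s v := fun t ht u hu v hv => by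
      by_cases e : u = v
      · rw [e]
      have := congrFun hs ⟨s(u, v), adj ht e hu hv⟩
      refine z2 _ _ ((sum2 s e).symm.trans (Eq.trans ?_ this))
      exact sum_congr rfl fun _ _ => mul_comm _ _
    obtain ⟨x, hx, ha⟩ := hc a
    obtain ⟨y, hy, hb⟩ := hc b
    have := hcon x hx y hy
    induction this generalizing b with
    | refl => exact e1 x hx _ ha _ hb
    | tail _ h ih =>
      obtain ⟨h1, -, u, v, -, a1, -, a3, -⟩ := h
      exact (ih u h1 a1).trans (e1 _ hy _ a3 _ hb)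
  have r1 := M1ᵀ.mulVecLin.finrank_range_add_finrank_ker
  have r1' := M1.mulVecLin.finrank_range_add_finrank_ker
  have r2 := M2.mulVecLin.finrank_range_add_finrank_ker
  have rt : finrank (ZMod 2) (LinearMap.range M1ᵀ.mulVecLin) =
    finrank (ZMod 2) (LinearMap.range M1.mulVecLin) := rank_transpose M1
  let Ψ : (E → ZMod 2) →ₗ[ZMod 2] ({e : E // e.1 ∉ H.edgeSet} → ZMod 2) × (U → ZMod 2) :=
    (LinearMap.funLeft _ _ Subtype.val).prod (LinearMap.funLeft _ _ Subtype.val ∘ₗ M1.mulVecLin)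
  have r3 := Ψ.finrank_range_add_finrank_ker
  have r4 := (LinearMap.range Ψ).finrank_le
  have hZ : ∀ y ∈ LinearMap.ker Ψ, (∀ e : E, y e ≠ 0 → e.1 ∈ H.edgeSet) ∧ M1 *ᵥ y = 0 :=
    fun y hy => by
      have a : ∀ e : E, y e ≠ 0 → e.1 ∈ H.edgeSet := fun e he =>
        by_contra fun h => he (congrFun (congrArg Prod.fst hy) ⟨e, h⟩)
      refine ⟨a, funext fun v => ?_⟩
      by_cases hv : v ∈ U
      · exact congrFun (congrArg Prod.snd hy) ⟨v, hv⟩
      refine sum_eq_zero fun e _ => ?_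
      by_cases h : y e = 0
      · simp [h]
      have := a e h
      simp only [M1]
      rw [if_neg, zero_mul]
      intro h'
      obtain ⟨w, hw⟩ := Sym2.mem_iff_exists.1 h'
      rw [hw] at this
      exact hv (hU _ _ this)
  have hB : LinearMap.range M2.mulVecLin ≤ LinearMap.ker M1.mulVecLin := by
    rintro _ ⟨s, rfl⟩
    simp [m12]
  have r5 := Submodule.finrank_sup_add_finrank_inf_eq (LinearMap.ker Ψ) (LinearMap.range M2.mulVecLin)
  have r6 := Submodule.finrank_mono (sup_le (fun y hy => (hZ y hy).2 :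
    LinearMap.ker Ψ ≤ LinearMap.ker M1.mulVecLin) hB)
  have cA : Fintype.card {e : E // e.1 ∉ H.edgeSet} + #H.edgeFinset = Fintype.card E := by
    rw [Fintype.card_subtype, ← card_univ (α := E),
      ← card_filter_add_card_filter_not (s := univ) (fun e : E => e.1 ∈ H.edgeSet), add_comm]
    congr 1
    exact card_bij (fun e he => ⟨e, edgeSet_mono hH (mem_edgeFinset.1 he)⟩)
      (fun e he => by simpa using he) (fun _ _ _ _ h => congrArg Subtype.val h)
      fun e he => ⟨e.1, by simpa using he, rfl⟩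
  have cE : E.ncard = Fintype.card E := by rw [← Nat.card_coe_set_eq, Nat.card_eq_fintype_card]
  -- even subgraphs are large
  have big : ∀ y : E → ZMod 2, (∀ e : E, y e ≠ 0 → e.1 ∈ H.edgeSet) → M1 *ᵥ y = 0 → y ≠ 0 →
      l ≤ #{e : E | y e ≠ 0} := fun y h1 h2 h3 => by
    by_contra hlt
    let K := fromEdgeSet {e | ∃ h, y ⟨e, h⟩ ≠ 0}
    have hK : K.IsAcyclic := few hl (fun u v h => h1 _ h.1.2)
      (({e : E | y e ≠ 0} : Finset E).image Subtype.val) (fun e he => by
        rw [edgeSet_fromEdgeSet] at he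
        simpa using he.1) (card_image_le.trans_lt (not_le.1 hlt))
    obtain ⟨⟨e, he⟩, hy⟩ := Function.ne_iff.1 h3
    induction e using Sym2.ind with | _ u v => ?_
    have huv := (skel T).ne_of_adj he
    have hb := isAcyclic_iff_forall_adj_isBridge.1 hK (show K.Adj u v from ⟨⟨he, hy⟩, huv⟩)
    let φ : W → ZMod 2 := fun w => if (K.deleteEdges {s(u, v)}).Reachable u w then 1 else 0
    have h0 : φ ᵥ* M1 ⬝ᵥ y = 0 := by rw [← dotProduct_mulVec, h2, dotProduct_zero]
    rw [dotProduct, sum_eq_single ⟨s(u, v), he⟩ _ (by simp)] at h0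
    · have : (φ ᵥ* M1) ⟨s(u, v), he⟩ = 1 := (sum2 φ huv).trans (by
        simp only [φ]; rw [if_pos (.refl _), if_neg (isBridge_iff.1 hb), add_zero])
      rw [this, one_mul] at h0
      exact hy h0
    rintro ⟨e, he'⟩ - hne
    induction e using Sym2.ind with | _ a b => ?_
    by_cases h : y ⟨s(a, b), he'⟩ = 0
    · simp [h]
    have hab := (skel T).ne_of_adj he'
    have : (K.deleteEdges {s(u, v)}).Adj a b :=
      deleteEdges_adj.2 ⟨⟨⟨he', h⟩, hab⟩, fun h => hne (Subtype.ext h)⟩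
    have : φ a = φ b := if_congr ⟨fun h => h.trans this.reachable,
      fun h => h.trans this.symm.reachable⟩ rfl rfl
    rw [show (φ ᵥ* M1) ⟨s(a, b), he'⟩ = φ a + φ b from sum2 φ hab, this, CharTwo.add_self_eq_zero,
      zero_mul]
  -- regions
  let R : Setoid T := ⟨fun a b => ∀ s, M2 *ᵥ s ∈ LinearMap.ker Ψ → s a = s b,
    fun _ _ _ => rfl, fun h s hs => (h s hs).symm, fun h h' s hs => (h s hs).trans (h' s hs)⟩
  let y : Quotient R → E → ZMod 2 := fun ρ => M2 *ᵥ fun b => if ⟦b⟧ = ρ then 1 else 0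
  let Q : Finset (Quotient R) := {ρ | y ρ ≠ 0}
  have r7 : finrank (ZMod 2) ↥(LinearMap.ker Ψ ⊓ LinearMap.range M2.mulVecLin) ≤ #Q := by
    have h1 : finrank (ZMod 2) (Submodule.span (ZMod 2) ((Q.image y : Finset (E → ZMod 2)) :
      Set (E → ZMod 2))) ≤ #(Q.image y) := finrank_span_finset_le_card _
    refine (Submodule.finrank_mono ?_).trans (h1.trans card_image_le)
    intro z hz
    obtain ⟨h, s, rfl⟩ := Submodule.mem_inf.1 hz
    have : s = ∑ ρ : Quotient R, s ρ.out • fun b => if ⟦b⟧ = ρ then (1 : ZMod 2) else 0 := by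
      funext b
      simpa [Finset.sum_apply] using (Quotient.exact (Quotient.out_eq (s := R) ⟦b⟧) s h).symm
    rw [this, map_sum]
    refine Submodule.sum_mem _ fun ρ _ => ?_
    rw [map_smul]
    refine Submodule.smul_mem _ _ ?_
    by_cases h : y ρ = 0
    · change y ρ ∈ _
      rw [h]; exact zero_mem _
    · exact Submodule.subset_span (mem_coe.2 (mem_image_of_mem y (by simpa [Q] using h)))
  have ys : ∀ ρ (e : E), y ρ e ≠ 0 → e.1 ∈ H.edgeSet := fun ρ e he => by
    by_contra h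
    obtain ⟨a, b, hab, h'⟩ := card_eq_two.1 (two e)
    have ha : ∀ v ∈ e.1, v ∈ a.1 := by simpa using h'.ge (mem_insert_self a {b})
    have hb : ∀ v ∈ e.1, v ∈ b.1 := by simpa using h'.ge (mem_insert_of_mem (mem_singleton_self b))
    have : (⟦a⟧ : Quotient R) = ⟦b⟧ := Quotient.sound fun s hs => z2 _ _
      ((pair e a b ha hb hab s).symm.trans (by_contra fun h0 => h ((hZ _ hs).1 e h0)))
    exact he ((pair e a b ha hb hab _).trans (by rw [this, CharTwo.add_self_eq_zero]))
  have r8 : #Q * l ≤ #{e : E | e.1 ∈ H.edgeSet} * 2 := by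
    refine card_mul_le_card_mul (fun ρ e => y ρ e ≠ 0) (fun ρ h => ?_) fun e _ => ?_
    · refine (big _ (ys ρ) (by simp [y, m12]) (by simpa [Q] using h)).trans (card_le_card ?_)
      intro e he
      simp only [mem_filter, mem_univ, true_and, mem_bipartiteAbove] at he ⊢
      exact ⟨ys ρ e he, he⟩
    · refine le_trans (card_le_card fun ρ h => ?_)
        ((card_image_le (f := fun t => (⟦t⟧ : Quotient R))).trans (two e).le)
      obtain ⟨t, -, ht⟩ := exists_ne_zero_of_sum_ne_zero ((mem_bipartiteBelow _).1 h).2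
      refine mem_image.2 ⟨t, mem_filter.2 ⟨mem_univ _, ?_⟩, ?_⟩ <;> by_contra h' <;> apply ht
      · exact mul_eq_zero_of_left (if_neg h') _
      · exact mul_eq_zero_of_right _ (if_neg h')
  have := card_filter_add_card_filter_not (s := univ) (fun e : E => e.1 ∈ H.edgeSet)
  simp only [finrank_prod, finrank_fintype_fun_eq_card, Fintype.card_coe, card_univ]
    at r1 r1' r2 r3 r4 this
  rw [Fintype.card_subtype] at cA r4
  have h9 : #H.edgeFinset ≤ #U + g + #Q := by
    change _ = E.ncard + 2 at heu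
    omega
  have h10 : #{e : E | e.1 ∈ H.edgeSet} = #H.edgeFinset := by omega
  rw [h10] at r8
  have := Nat.mul_le_mul_left l h9
  linarith

end Pool.Agent.H.MP_9b9b31_co
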