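import Mathlib
import Pool.Agent.H.MP_9b9b31_co.A

namespace Pool.Agent.H.MP_9b9b31_co

open Finset SimpleGraph

variable {W : Type} [Fintype W] [DecidableEq W]

lemma par {H : SimpleGraph W} {l : ℕ} (hl : (l : ℕ∞) ≤ H.egirth) {x v a b : W}
    (hr : H.Reachable x v) (ha : H.Adj a v) (hb : H.Adj b v) (h1 : H.dist x a ≤ H.dist x v)
    (h2 : H.dist x b ≤ H.dist x v) (h : 2 * H.dist x v + 2 < l) : a = b := by
  have key : ∀ {a} (ha : H.Adj a v), H.dist x a ≤ H.dist x v → ∃ p : H.Walk x a,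
      (p.concat ha).IsPath ∧ p.length ≤ H.dist x v := fun {a} ha h1 => by
    obtain ⟨p, hp, e⟩ := (hr.trans ha.symm.reachable).exists_path_of_dist
    refine ⟨p, hp.concat (fun hv => ?_) ha, e ▸ h1⟩
    have := p.length_takeUntil_lt_length hv ha.ne.symm
    have := dist_le (p.takeUntil v hv)
    omega
  obtain ⟨p, hp, lp⟩ := key ha h1
  obtain ⟨q, hq, lq⟩ := key hb h2
  let s := ((p.concat ha).edges ++ (q.concat hb).edges).toFinset
  have hs : ∀ e ∈ s, e ∈ H.edgeSet := fun e he =>
    (List.mem_append.1 (List.mem_toFinset.1 he)).elim (Walk.edges_subset_edgeSet _ ·)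
      (Walk.edges_subset_edgeSet _ ·)
  have hK : (fromEdgeSet s).IsAcyclic := few hl (fun u v h => hs _ h.1) s
    (by rw [edgeSet_fromEdgeSet]; exact Set.diff_subset) ((List.toFinset_card_le _).trans_lt (by
      simp only [List.length_append, Walk.length_edges, Walk.length_concat]; omega))
  have hm : ∀ e ∈ s, e ∈ (fromEdgeSet (s : Set (Sym2 W))).edgeSet := fun e he => by
    rw [edgeSet_fromEdgeSet]; exact ⟨he, H.not_isDiag_of_mem_edgeSet (hs e he)⟩
  have := isAcyclic_iff_path_unique.1 hK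
    ⟨(p.concat ha).transfer _ fun e he => hm e (by simp only [s]; simp [he, -Walk.edges_concat]),
      hp.transfer _⟩
    ⟨(q.concat hb).transfer _ fun e he => hm e (by simp only [s]; simp [he, -Walk.edges_concat]),
      hq.transfer _⟩
  have := congrArg (fun p => p.1.support) this
  simp only [Walk.support_transfer, Walk.support_concat, List.append_cancel_right_eq] at this
  rw [← p.getLast_support, ← q.getLast_support]
  congr 1

lemma moore {H : SimpleGraph W} [DecidableRel H.Adj] {l K : ℕ} (hl : (l : ℕ∞) ≤ H.egirth)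
    (hK : 1 ≤ K) (hd : ∀ v w, H.Adj v w → 2 ≤ H.degree v)
    (hb : ∀ v w, H.Adj v w → K < H.degree v ∨ ∃ u, H.Adj v u ∧ K < H.degree u)
    {x x' : W} (hx : H.Adj x x') (U : Finset W) (hU : ∀ u v, H.Adj u v → u ∈ U) (r : ℕ)
    (hr : 6 * r + 2 < l) : K ^ r ≤ 3 ^ r * #U := by
  classical
  let L : ℕ → Finset W := fun d => {v | H.Reachable x v ∧ H.dist x v = d}
  have mL : ∀ {d v}, v ∈ L d ↔ H.Reachable x v ∧ H.dist x v = d := by simp [L]
  have nb : ∀ {d v}, v ∈ L d → ∃ w, H.Adj v w := fun h => by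
    obtain ⟨p⟩ := (mL.1 h).1.symm
    cases p with
    | nil => exact ⟨_, hx⟩
    | cons h _ => exact ⟨_, h⟩
  have up : ∀ {d v w}, v ∈ L d → H.Adj v w → H.dist x w ≤ d ∨ w ∈ L (d + 1) := fun h a => by
    obtain ⟨h1, rfl⟩ := mL.1 h
    obtain ⟨p, -, e⟩ := h1.exists_path_of_dist
    have := dist_le (p.concat a)
    rw [Walk.length_concat] at this
    rw [mL, and_iff_right (h1.trans a.reachable)]
    omega
  have un : ∀ {d v a b}, 2 * d + 2 < l → v ∈ L d → H.Adj a v → H.Adj b v → H.dist x a ≤ d →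
      H.dist x b ≤ d → a = b := fun hd h ha hb h1 h2 => by
    obtain ⟨h0, rfl⟩ := mL.1 h
    exact par hl h0 ha hb h1 h2 hd
  have ch : ∀ {d v}, 2 * d + 2 < l → v ∈ L d → H.degree v ≤ #{w ∈ L (d + 1) | H.Adj v w} + 1 :=
    fun {d v} hd h => by
      have : #{w ∈ H.neighborFinset v | H.dist x w ≤ d} ≤ 1 := card_le_one.2 fun a ha b hb => by
        simp only [mem_filter, mem_neighborFinset] at ha hb
        exact un hd h ha.1.symm hb.1.symm ha.2 hb.2
      refine le_trans ?_ ((card_union_le _ _).trans (Nat.add_le_add_left this _))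
      refine card_le_card fun w hw => ?_
      have := up h ((mem_neighborFinset _ _ _).1 hw)
      simp only [mem_filter, mem_neighborFinset, mem_union] at hw ⊢
      tauto
  have dc : ∀ {d m} (s t : Finset W), 2 * d + 4 < l → s ⊆ L d → t ⊆ L (d + 1) →
      (∀ a ∈ s, m ≤ #{w ∈ t | H.Adj a w}) → #s * m ≤ #t := fun s t hd hs ht h => by
    refine (card_mul_le_card_mul H.Adj h fun w hw => card_le_one.2 fun a ha b hb => ?_).trans_eq
      (mul_one _)
    simp only [mem_bipartiteBelow] at ha hb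
    exact un (by omega) (ht hw) ha.2 hb.2 ((mL.1 (hs ha.1)).2.le.trans (by omega))
      ((mL.1 (hs hb.1)).2.le.trans (by omega))
  have m1 : ∀ d, 2 * d + 4 < l → #(L d) ≤ #(L (d + 1)) := fun d h => by
    simpa using dc (m := 1) _ _ h subset_rfl subset_rfl fun a ha => by
      have := ch (by omega) ha
      have := (nb ha).elim fun w => hd a w
      omega
  have m2 : ∀ d, 2 * d + 4 < l → #{v ∈ L d | K < H.degree v} * K ≤ #(L (d + 1)) := fun d h =>
    dc _ _ h (filter_subset _ _) subset_rfl fun a ha => by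
      have := ch (by omega) (mem_filter.1 ha).1
      have := (mem_filter.1 ha).2
      omega
  have m3 : ∀ d, 2 * d + 8 < l → #(L d) * K ≤ 3 * #(L (d + 3)) := fun d h => by
    let C := {w ∈ L (d + 1) | ∃ v ∈ L d, ¬ K < H.degree v ∧ H.Adj v w}
    have a1 := dc (m := 1) {v ∈ L d | ¬ K < H.degree v} C (by omega) (filter_subset _ _)
      (filter_subset _ _) fun a ha => by
        have h1 := ch (by omega) (mem_filter.1 ha).1
        have := (nb (mem_filter.1 ha).1).elim fun w => hd a w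
        refine le_trans (by omega) (card_le_card (s := {w ∈ L (d + 1) | H.Adj a w}) fun w hw => ?_)
        simp only [C, mem_filter] at hw ha ⊢
        exact ⟨⟨hw.1, a, ha.1, ha.2, hw.2⟩, hw.2⟩
    have a2 := dc (m := 1) {v ∈ C | ¬ K < H.degree v} {v ∈ L (d + 2) | K < H.degree v} (by omega)
      ((filter_subset _ _).trans (filter_subset _ _)) (filter_subset _ _) fun a ha => by
        simp only [C, mem_filter] at ha
        obtain ⟨⟨h1, v, h2, h3, h4⟩, h5⟩ := ha
        obtain ⟨u, h6, h7⟩ := (hb a v h4.symm).resolve_left h5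
        refine card_pos.2 ⟨u, mem_filter.2 ⟨mem_filter.2 ⟨(up h1 h6).resolve_left fun h8 => ?_, h7⟩,
          h6⟩⟩
        exact h3 (un (by omega) h1 h6.symm h4 h8 ((mL.1 h2).2.le.trans (by omega)) ▸ h7)
    have a3 : #{v ∈ C | K < H.degree v} ≤ #{v ∈ L (d + 1) | K < H.degree v} :=
      card_le_card (filter_subset_filter _ (filter_subset _ _))
    have a4 := card_filter_add_card_filter_not (s := C) fun v => K < H.degree v
    have a5 := card_filter_add_card_filter_not (s := L d) fun v => K < H.degree v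
    have b0 := m2 d (by omega)
    have b1 := m2 (d + 1) (by omega)
    have b2 := m2 (d + 2) (by omega)
    have c1 := m1 (d + 1) (by omega)
    have c2 := m1 (d + 2) (by omega)
    have : #(L d) ≤ #{v ∈ L d | K < H.degree v} + #{v ∈ L (d + 1) | K < H.degree v} +
      #{v ∈ L (d + 2) | K < H.degree v} := by omega
    have := Nat.mul_le_mul_right K this
    simp only [add_assoc, Nat.reduceAdd] at *
    linarith
  have : ∀ i ≤ r, K ^ i ≤ 3 ^ i * #(L (3 * i)) := fun i hi => by
    induction i with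
    | zero => simpa using ⟨x, mL.2 ⟨.refl _, by simp⟩⟩
    | succ i ih =>
      have h1 := Nat.mul_le_mul_right K (ih (by omega))
      have h2 := Nat.mul_le_mul_left (3 ^ i) (m3 (3 * i) (by omega))
      rw [pow_succ, pow_succ, mul_add]
      linarith
  exact (this r le_rfl).trans (Nat.mul_le_mul_left _ (card_le_card fun v hv =>
    (nb hv).elim fun w => hU v w))

/-- `(0,k)`-colourability: `I` is independent and the rest has maximum degree at most `k` -/
def Col {V : Type} (G : SimpleGraph V) (k : ℕ) : Prop :=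
  ∃ I : Set V, G.IsIndepSet I ∧ ∀ v ∉ I, {w | w ∉ I ∧ G.Adj v w}.ncard ≤ k

lemma red {H : SimpleGraph W} [DecidableRel H.Adj] {K : ℕ} (v : W)
    (h1 : Col (H.deleteEdges {e | v ∈ e}) K) (h2 : ¬ Col H K) (hK : 1 ≤ K) :
    2 ≤ H.degree v ∧ (K < H.degree v ∨ ∃ u, H.Adj v u ∧ K < H.degree u) := by
  obtain ⟨I, hI, hD⟩ := h1
  have dg : ∀ u (S : Set W), S ⊆ H.neighborSet u → S.ncard ≤ H.degree u := fun u S h => by
    rw [← card_neighborFinset_eq_degree, ← Set.ncard_coe_finset]
    exact Set.ncard_le_ncard (by simpa using h)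
  have a1 : ∃ a ∈ I, H.Adj v a := by
    by_contra! h
    refine h2 ⟨insert v I, fun a ha b hb hab h' => ?_, fun u hu => (Set.ncard_le_ncard ?_).trans
      (hD u fun h => hu (Or.inr h))⟩
    · rcases ha with rfl | ha
      · exact h b (hb.resolve_left hab.symm) h'
      rcases hb with rfl | hb
      · exact h a ha h'.symm
      refine hI ha hb hab (deleteEdges_adj.2 ⟨h', fun e => ?_⟩)
      rcases Sym2.mem_iff.1 e with rfl | rfl
      exacts [h b hb h', h a ha h'.symm]
    · rintro w ⟨h1, h2⟩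
      simp only [Set.mem_insert_iff, not_or] at h1 hu
      exact ⟨h1.2, deleteEdges_adj.2 ⟨h2, by simp [Ne.symm h1.1, Ne.symm hu.1]⟩⟩
  have a2 : ∃ u, u ∉ I \ {v} ∧ K < {w | w ∉ I \ {v} ∧ H.Adj u w}.ncard := by
    by_contra! h
    exact h2 ⟨I \ {v}, fun a ha b hb hab h' => hI ha.1 hb.1 hab (deleteEdges_adj.2 ⟨h', by
      simpa using ⟨Ne.symm ha.2, Ne.symm hb.2⟩⟩), h⟩
  obtain ⟨a, ha, ha'⟩ := a1
  obtain ⟨u, hu, hu'⟩ := a2
  have := hu'.trans_le (dg u _ fun w h => h.2)
  by_cases e : u = v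
  · subst e; exact ⟨by omega, Or.inl this⟩
  have hu2 : u ∉ I := fun h => hu ⟨h, e⟩
  have huv : H.Adj v u := by_contra fun h => hu'.not_ge ((Set.ncard_le_ncard fun w hw => by
    have : w ≠ v := fun e => h (e ▸ hw.2.symm)
    exact ⟨fun h => hw.1 ⟨h, this⟩, deleteEdges_adj.2 ⟨hw.2, by simp [Ne.symm e, this.symm]⟩⟩).trans
      (hD u hu2))
  refine ⟨le_trans ?_ (dg v {a, u} (by rintro _ (rfl | rfl) <;> assumption)), Or.inr ⟨u, huv, this⟩⟩
  rw [Set.ncard_pair fun e : a = u => hu2 (e ▸ ha)]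

theorem main {T : Finset (Finset W)} {g l K r : ℕ} (hT : Surf T g) (h7 : 7 ≤ l) (hK : 28 ≤ K)
    (hr : r = 1 ∨ 6 * r + 2 < l) (hg : 3 ^ r * (28 * g) < K ^ r) (H : SimpleGraph W)
    (hH : H ≤ skel T) (hl : (l : ℕ∞) ≤ H.egirth) : Col H K := by
  classical
  induction H using WellFoundedLT.induction with | _ H ih => ?_
  by_contra h
  have key : ∀ v w, H.Adj v w → 2 ≤ H.degree v ∧
      (K < H.degree v ∨ ∃ u, H.Adj v u ∧ K < H.degree u) := fun v w a =>
    red v (ih _ ((deleteEdges_le _).lt_of_ne fun e => by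
      rw [← e] at a; simp at a) ((deleteEdges_le _).trans hH)
      (hl.trans (egirth_anti (deleteEdges_le _)))) h (by omega)
  obtain ⟨x, x', hx⟩ : ∃ x x', H.Adj x x' := by
    by_contra! h'
    exact h ⟨Set.univ, fun a _ b _ _ => h' a b, by simp⟩
  let U : Finset W := {u | ∃ v, H.Adj u v}
  have hU : ∀ u v, H.Adj u v → u ∈ U := fun u v h => mem_filter.2 ⟨mem_univ _, v, h⟩
  have e1 := euler (l := 7) hT hH (le_trans (by exact_mod_cast h7) hl) U hU
  have e2 := H.sum_degrees_eq_twice_card_edges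
  let B := {u ∈ U | K < H.degree u}
  let S := {u ∈ U | ¬ K < H.degree u}
  have e3 : ∑ u ∈ B, H.degree u + ∑ u ∈ S, H.degree u ≤ ∑ u, H.degree u := by
    rw [sum_filter_add_sum_filter_not]; exact sum_le_sum_of_subset (subset_univ _)
  have e4 : #B * 29 ≤ ∑ u ∈ B, H.degree u :=
    card_nsmul_le_sum B (fun u => H.degree u) 29 fun u hu => by
      have := (mem_filter.1 hu).2; omega
  have e5 : #S * 2 ≤ ∑ u ∈ S, H.degree u :=
    card_nsmul_le_sum S _ _ fun u hu => (mem_filter.1 (mem_filter.1 hu).1).2.elim fun v a =>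
      (key u v a).1
  have e6 : #S ≤ ∑ u ∈ B, H.degree u := by
    refine le_trans (card_le_card fun u hu => ?_) (card_biUnion_le (t := fun u => H.neighborFinset u))
    obtain ⟨h1, h2⟩ := mem_filter.1 hu
    obtain ⟨v, a⟩ := (mem_filter.1 h1).2
    obtain ⟨w, b, c⟩ := (key u v a).2.resolve_left h2
    exact mem_biUnion.2 ⟨w, mem_filter.2 ⟨hU _ _ b.symm, c⟩, (mem_neighborFinset _ _ _).2 b.symm⟩
  have e7 : #B + #S = #U := card_filter_add_card_filter_not _
  have e8 : #U ≤ 28 * g := by omega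
  refine hg.not_ge (le_trans ?_ (Nat.mul_le_mul_left _ e8))
  rcases hr with rfl | hr
  · obtain ⟨u, hu⟩ : ∃ u, K < H.degree u := (key x x' hx).2.elim (⟨_, ·⟩) fun ⟨u, h⟩ => ⟨u, h.2⟩
    have : H.degree u ≤ #U := card_le_card fun w hw =>
      hU _ _ ((mem_neighborFinset _ _ _).1 hw).symm
    simp only [pow_one]
    omega
  · exact moore hl (by omega) (fun v w a => (key v w a).1) (fun v w a => (key v w a).2) hx U hU r hr

end Pool.Agent.H.MP_9b9b31_co
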